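import Mathlib
import Pool.Agent.N417.Theta.Defs
import Pool.Agent.N417.Theta.Main

/-!
# `Θ_{3,3,3}` is metrizable

Every consistent path system of the theta graph whose three paths have three edges each is induced
by positive edge weights.
-/

set_option autoImplicit false

namespace Pool.Agent.Results.MP_d7339e_co.Theta333

open Pool.Agent.N417.Theta

/-- `Θ_{3,3,3}` is metrizable. -/
theorem result : Metrizable theta333 := Pool.Agent.N417.Theta.main

end Pool.Agent.Results.MP_d7339e_co.Theta333
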